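import Mathlib

set_option autoImplicit false

open Polynomial

namespace Pool.Agent.H680Z.OO

variable {F : Type*} [Field F] [Algebra ℂ F]

/-- The integral closure of the polynomial ring in x. -/
def Rg (x : F) : Subalgebra ℂ F :=
  (integralClosure (Algebra.adjoin ℂ ({x} : Set F)) F).restrictScalars ℂ

theorem mem_Rg {x f : F} : f ∈ Rg x ↔ IsIntegral (Algebra.adjoin ℂ ({x} : Set F)) f := Iff.rfl

theorem adjoin_le_Rg (x : F) : Algebra.adjoin ℂ ({x} : Set F) ≤ Rg x := fun a ha =>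
  mem_Rg.mpr (isIntegral_algebraMap (R := Algebra.adjoin ℂ ({x} : Set F)) (x := ⟨a, ha⟩))

theorem self_mem_Rg (x : F) : x ∈ Rg x := adjoin_le_Rg x (Algebra.subset_adjoin rfl)

theorem Rg_sq {x f : F} (h : f ^ 2 ∈ Rg x) : f ∈ Rg x :=
  mem_Rg.mpr (IsIntegral.of_pow (by norm_num) (mem_Rg.mp h))

/-- Sections of degree below m. -/
def S (x : F) (m : ℕ) : Submodule ℂ F where
  carrier := {f | f ∈ Rg x ∧ f * x * x⁻¹ ^ m ∈ Rg x⁻¹}
  add_mem' := fun {a b} ha hb => ⟨add_mem ha.1 hb.1, by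
    rw [add_mul, add_mul]; exact add_mem ha.2 hb.2⟩
  zero_mem' := ⟨zero_mem _, by rw [zero_mul, zero_mul]; exact zero_mem _⟩
  smul_mem' := fun c a ha => ⟨Subalgebra.smul_mem _ ha.1 c, by
    rw [smul_mul_assoc, smul_mul_assoc]; exact Subalgebra.smul_mem _ ha.2 c⟩

theorem mem_S {x f : F} {m : ℕ} : f ∈ S x m ↔ f ∈ Rg x ∧ f * x * x⁻¹ ^ m ∈ Rg x⁻¹ := Iff.rfl

theorem mem_S_succ {x f : F} (hx : x ≠ 0) {m : ℕ} :
    f ∈ S x (m + 1) ↔ f ∈ Rg x ∧ f * x⁻¹ ^ m ∈ Rg x⁻¹ := by
  have : f * x * x⁻¹ ^ (m + 1) = f * x⁻¹ ^ m := by rw [pow_succ]; field_simp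
  rw [mem_S, this]

theorem S_mono {x f : F} {m n : ℕ} (hmn : m ≤ n) (h : f ∈ S x m) : f ∈ S x n := by
  obtain ⟨k, rfl⟩ := Nat.exists_eq_add_of_le hmn
  refine ⟨h.1, ?_⟩
  rw [pow_add, ← mul_assoc]
  exact mul_mem h.2 (pow_mem (self_mem_Rg _) k)

theorem S_mul {x f g : F} (hx : x ≠ 0) {m n : ℕ} (hf : f ∈ S x (m + 1)) (hg : g ∈ S x n) :
    f * g ∈ S x (m + n) := by
  rw [mem_S_succ hx] at hf
  refine ⟨mul_mem hf.1 hg.1, ?_⟩
  have := mul_mem hf.2 hg.2
  convert this using 1
  ring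

theorem pow_mem_S {x : F} (hx : x ≠ 0) (k : ℕ) : x ^ k ∈ S x (k + 1) := by
  rw [mem_S_succ hx]
  refine ⟨pow_mem (self_mem_Rg _) k, ?_⟩
  rw [← mul_pow, mul_inv_cancel₀ hx, one_pow]; exact one_mem _

theorem aeval_mem_S {x : F} (hx : x ≠ 0) {n : ℕ} {p : ℂ[X]} (hp : p.degree < n) :
    aeval x p ∈ S x n := by
  by_cases h0 : p = 0
  · subst h0; simp
  · have hn : p.natDegree < n := (natDegree_lt_iff_degree_lt h0).mpr hp
    rw [aeval_eq_sum_range' hn]
    refine Submodule.sum_mem _ fun i hi => Submodule.smul_mem _ _ ?_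
    exact S_mono (by simpa [Nat.succ_le_iff] using hi) (pow_mem_S hx i)

theorem exists_pow_adjoin {x : F} (hx : x ≠ 0) {a : F} (ha : a ∈ Algebra.adjoin ℂ ({x} : Set F)) :
    ∃ N : ℕ, ∀ n ≥ N, a * x⁻¹ ^ n ∈ Rg x⁻¹ := by
  rw [Algebra.adjoin_singleton_eq_range_aeval] at ha
  obtain ⟨p, rfl⟩ := ha
  refine ⟨p.natDegree, fun n hn => ?_⟩
  have : aeval x p ∈ S x (n + 1) :=
    aeval_mem_S hx (lt_of_le_of_lt degree_le_natDegree (by exact_mod_cast Nat.lt_succ_of_le hn))
  exact ((mem_S_succ hx).mp this).2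

theorem exists_pow_Rg {x : F} (hx : x ≠ 0) {f : F} (hf : f ∈ Rg x) :
    ∃ N : ℕ, ∀ n ≥ N, f * x⁻¹ ^ n ∈ Rg x⁻¹ := by
  obtain ⟨P, hP, hPf⟩ := mem_Rg.mp hf
  set Q : F[X] := P.map (algebraMap _ F) with hQ
  have hQm : Q.Monic := hP.map _
  have hQf : Q.eval f = 0 := by rw [hQ, eval_map]; exact hPf
  have hc : ∀ i, ∃ N : ℕ, ∀ n ≥ N, Q.coeff i * x⁻¹ ^ n ∈ Rg x⁻¹ := fun i =>
    exists_pow_adjoin hx (by rw [hQ, coeff_map]; exact (P.coeff i).2)
  choose N hN using hc
  have hdeg : Q.natDegree ≠ 0 := by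
    intro h
    rw [hQm.natDegree_eq_zero.mp h] at hQf
    simp at hQf
  refine ⟨∑ i ∈ Finset.range Q.natDegree, N i, fun n hn => ?_⟩
  rw [mem_Rg, mul_comm]
  refine IsIntegral.of_aeval_monic_of_isIntegral_coeff (p := Q.scaleRoots (x⁻¹ ^ n))
    ((monic_scaleRoots_iff _).mpr hQm) (by simpa using hdeg) ?_ ?_
  · rw [scaleRoots_eval_mul, hQf, mul_zero]; exact isIntegral_zero
  · intro i
    rw [coeff_scaleRoots]
    rcases lt_trichotomy i Q.natDegree with h | h | h
    · rw [← pow_mul]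
      apply mem_Rg.mp
      apply hN
      have h1 : N i ≤ ∑ i ∈ Finset.range Q.natDegree, N i :=
        Finset.single_le_sum (f := N) (fun _ _ => Nat.zero_le _) (Finset.mem_range.mpr h)
      have h2 : 1 ≤ Q.natDegree - i := by omega
      calc N i ≤ n := h1.trans hn
        _ ≤ n * (Q.natDegree - i) := Nat.le_mul_of_pos_right _ h2
    · subst h
      rw [hQm.coeff_natDegree]; simpa using isIntegral_one
    · rw [coeff_eq_zero_of_natDegree_lt h, zero_mul]; exact isIntegral_zero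

/-- The splitting type. -/
def aa (i : ℕ) : ℕ := [0, 4, 6, 9, 12, 15, 18].getD i 0

/-- The dimension count. -/
def HH (m : ℕ) : ℕ := ∑ j ∈ Finset.range 7, (m - aa j)

theorem aa_le : ∀ n < 7, ∀ j < n, aa j ≤ aa n := by decide

theorem HH_lt : ∀ n < 7, HH (aa n) + n < HH (aa n + 1) := by decide

theorem exists_basis {x : F} (hx : x ≠ 0)
    (hfin : ∀ m, FiniteDimensional ℂ (S x m) ∧ Module.finrank ℂ (S x m) = HH m)
    (n : ℕ) (hn : n < 7) : ∃ X : ℕ → F, X 0 = 1 ∧ (∀ j < n + 1, X j ∈ S x (aa j + 1)) ∧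
      ∀ c : ℕ → ℂ, (∑ j ∈ Finset.range (n + 1), c j • (X j * x⁻¹ ^ aa j)) * x ∈ Rg x⁻¹ →
        ∀ j < n + 1, c j = 0 := by
  induction n with
  | zero =>
    refine ⟨fun _ => 1, rfl, ?_, ?_⟩
    · intro j hj
      obtain rfl : j = 0 := by omega
      simpa [aa] using pow_mem_S hx 0
    · intro c hc j hj
      obtain rfl : j = 0 := by omega
      have := (hfin 0).1
      have hb : S x 0 = ⊥ := Submodule.finrank_eq_zero.mp (by rw [(hfin 0).2]; simp [HH])
      have h1 : (c 0 • (1 : F)) ∈ S x 0 :=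
        ⟨Subalgebra.smul_mem _ (one_mem _) _, by simpa [aa] using hc⟩
      rw [hb] at h1
      simpa using h1
  | succ n ih =>
    obtain ⟨X, hX0, hXS, hI⟩ := ih (by omega)
    set a := aa (n + 1) with ha
    let v : Fin (n + 1) → F := fun j => x ^ (a - aa j) * X j
    let T : Submodule ℂ F := S x a ⊔ Submodule.span ℂ (Set.range v)
    have := (hfin a).1
    have : FiniteDimensional ℂ (Submodule.span ℂ (Set.range v)) :=
      FiniteDimensional.span_of_finite ℂ (Set.finite_range v)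
    have hT : Module.finrank ℂ T ≤ HH a + (n + 1) := by
      refine (Submodule.finrank_add_le_finrank_add_finrank _ _).trans ?_
      rw [(hfin a).2]
      have := finrank_range_le_card (R := ℂ) v
      simpa [Set.finrank] using this
    obtain ⟨f, hfS, hfT⟩ : ∃ f ∈ S x (a + 1), f ∉ T := by
      by_contra hcon
      push Not at hcon
      have h1 := Submodule.finrank_mono (show S x (a + 1) ≤ T from hcon)
      rw [(hfin (a + 1)).2] at h1
      have := HH_lt (n + 1) hn
      rw [← ha] at this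
      omega
    refine ⟨Function.update X (n + 1) f, by simp [hX0], ?_, ?_⟩
    · intro j hj
      by_cases h : j = n + 1
      · subst h; simpa using hfS
      · rw [Function.update_of_ne h]; exact hXS j (by omega)
    · intro c hc
      rw [Finset.sum_range_succ, Function.update_self] at hc
      have hsum : ∑ j ∈ Finset.range (n + 1), c j • (Function.update X (n + 1) f j * x⁻¹ ^ aa j)
          = ∑ j ∈ Finset.range (n + 1), c j • (X j * x⁻¹ ^ aa j) :=
        Finset.sum_congr rfl fun j hj => by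
          rw [Function.update_of_ne (by have := Finset.mem_range.mp hj; omega)]
      rw [hsum, ← ha] at hc
      have hcn : c (n + 1) = 0 := by
        by_contra hne
        apply hfT
        have hg : (∑ j ∈ Finset.range (n + 1), c j • (x ^ (a - aa j) * X j)) + c (n + 1) • f
            ∈ S x a := by
          refine ⟨add_mem (Subalgebra.sum_mem _ fun j hj => Subalgebra.smul_mem _
            (mul_mem (pow_mem (self_mem_Rg _) _) (hXS j (Finset.mem_range.mp hj)).1) _)
            (Subalgebra.smul_mem _ hfS.1 _), ?_⟩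
          convert hc using 1
          rw [mul_right_comm, add_mul, Finset.sum_mul, smul_mul_assoc]
          congr 2
          refine Finset.sum_congr rfl fun j hj => ?_
          rw [smul_mul_assoc]
          congr 1
          obtain ⟨k, hk⟩ := Nat.exists_eq_add_of_le
            (aa_le (n + 1) hn j (Finset.mem_range.mp hj))
          rw [← ha] at hk
          rw [hk, Nat.add_sub_cancel_left, pow_add, inv_pow x k]
          field_simp
        have hs : (∑ j ∈ Finset.range (n + 1), c j • (x ^ (a - aa j) * X j)) ∈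
            Submodule.span ℂ (Set.range v) :=
          Submodule.sum_mem _ fun j hj => Submodule.smul_mem _ _
            (Submodule.subset_span ⟨⟨j, Finset.mem_range.mp hj⟩, rfl⟩)
        have h2 := T.smul_mem (c (n + 1))⁻¹
          (T.sub_mem (Submodule.mem_sup_left hg) (Submodule.mem_sup_right hs))
        simpa [smul_smul, inv_mul_cancel₀ hne] using h2
      rw [hcn, zero_smul, add_zero] at hc
      intro j hj
      by_cases h : j = n + 1
      · rw [h, hcn]
      · exact hI c hc j (by omega)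

theorem comb_mem_S {x : F} (hx : x ≠ 0) {X : ℕ → F} (hXS : ∀ j < 7, X j ∈ S x (aa j + 1))
    {M : ℕ} {p : ℕ → ℂ[X]} (hp : ∀ j < 7, (p j).degree < (M - aa j : ℕ)) :
    ∑ j ∈ Finset.range 7, aeval x (p j) * X j ∈ S x M := by
  refine Submodule.sum_mem _ fun j hj => ?_
  have hj := Finset.mem_range.mp hj
  by_cases h : aa j ≤ M
  · have := S_mul hx (hXS j hj) (aeval_mem_S hx (hp j hj))
    rw [Nat.add_sub_cancel' h, mul_comm] at this
    exact this
  · have h1 := hp j hj
    rw [Nat.sub_eq_zero_of_le (by omega)] at h1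
    have : p j = 0 := by simpa using h1
    simp [this]

theorem comb_inj {x : F} (hx : x ≠ 0) {X : ℕ → F} (hXS : ∀ j < 7, X j ∈ S x (aa j + 1))
    (hI : ∀ c : ℕ → ℂ, (∑ j ∈ Finset.range 7, c j • (X j * x⁻¹ ^ aa j)) * x ∈ Rg x⁻¹ →
        ∀ j < 7, c j = 0) (M : ℕ) :
    ∀ p : ℕ → ℂ[X], (∀ j < 7, (p j).degree < (M - aa j : ℕ)) →
      ∑ j ∈ Finset.range 7, aeval x (p j) * X j = 0 → ∀ j < 7, p j = 0 := by
  induction M with
  | zero => intro p hp _ j hj; simpa using hp j hj
  | succ M ih =>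
    intro p hp h0
    let c : ℕ → ℂ := fun j => if aa j ≤ M then (p j).coeff (M - aa j) else 0
    have hq : ∀ j < 7, (p j - monomial (M - aa j) (c j)).degree < (M - aa j : ℕ) := by
      intro j hj
      have h1 := hp j hj
      by_cases h : aa j ≤ M
      · rw [degree_lt_iff_coeff_zero] at h1 ⊢
        intro m hm
        rw [coeff_sub, coeff_monomial]
        split_ifs with h2
        · simp [c, h, h2]
        · rw [h1 m (by omega), sub_zero]
      · rw [Nat.sub_eq_zero_of_le (by omega)] at h1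
        have : p j = 0 := by simpa using h1
        simp [c, h, this]
    have h1 := comb_mem_S hx hXS hq
    have h2 : (∑ j ∈ Finset.range 7, c j • (X j * x⁻¹ ^ aa j)) * x =
        -((∑ j ∈ Finset.range 7, aeval x (p j - monomial (M - aa j) (c j)) * X j) * x * x⁻¹ ^ M) := by
      simp only [map_sub, sub_mul, Finset.sum_sub_distrib, h0, zero_sub, neg_mul, neg_neg]
      rw [mul_right_comm _ x, Finset.sum_mul _ _ (x⁻¹ ^ M)]
      congr 1
      refine Finset.sum_congr rfl fun j _ => ?_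
      by_cases h : aa j ≤ M
      · obtain ⟨k, hk⟩ := Nat.exists_eq_add_of_le h
        rw [aeval_monomial, Algebra.smul_def]
        generalize c j = cj
        rw [hk, Nat.add_sub_cancel_left, pow_add, inv_pow x k]
        field_simp
      · simp [c, h]
    have h3 := hI c (by rw [h2]; exact neg_mem h1.2)
    refine ih p (fun j hj => ?_) h0
    simpa [h3 j hj] using hq j hj

theorem comb_span {x : F} (hx : x ≠ 0)
    (hfin : ∀ m, FiniteDimensional ℂ (S x m) ∧ Module.finrank ℂ (S x m) = HH m)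
    {X : ℕ → F} (hXS : ∀ j < 7, X j ∈ S x (aa j + 1))
    (hI : ∀ c : ℕ → ℂ, (∑ j ∈ Finset.range 7, c j • (X j * x⁻¹ ^ aa j)) * x ∈ Rg x⁻¹ →
        ∀ j < 7, c j = 0) (M : ℕ) (f : F) (hf : f ∈ S x M) :
    ∃ p : ℕ → ℂ[X], (∀ j < 7, (p j).degree < (M - aa j : ℕ)) ∧
      f = ∑ j ∈ Finset.range 7, aeval x (p j) * X j := by
  let Φ : (Π j : Fin 7, degreeLT ℂ (M - aa j)) →ₗ[ℂ] F :=
    { toFun := fun q => ∑ j : Fin 7, aeval x (q j : ℂ[X]) * X j
      map_add' := fun q r => by simp [add_mul, Finset.sum_add_distrib]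
      map_smul' := fun c q => by simp [Finset.smul_sum] }
  have hext : ∀ q : (Π j : Fin 7, degreeLT ℂ (M - aa j)), ∃ p : ℕ → ℂ[X],
      (∀ j : Fin 7, p j = q j) ∧ (∀ j < 7, (p j).degree < (M - aa j : ℕ)) ∧
      Φ q = ∑ j ∈ Finset.range 7, aeval x (p j) * X j := by
    intro q
    refine ⟨fun j => if h : j < 7 then (q ⟨j, h⟩ : ℂ[X]) else 0, fun j => by simp, ?_, ?_⟩
    · intro j hj
      simp only [hj, dif_pos]
      exact mem_degreeLT.mp (q ⟨j, hj⟩).2
    · rw [Finset.sum_range]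
      simp [Φ]
  have hinj : Function.Injective Φ := by
    rw [injective_iff_map_eq_zero]
    intro q hq
    obtain ⟨p, hp1, hp2, hp3⟩ := hext q
    have := comb_inj hx hXS hI M p hp2 (hp3 ▸ hq)
    funext j
    apply Subtype.ext
    rw [← hp1 j]; exact this j j.2
  have hle : LinearMap.range Φ ≤ S x M := by
    rintro _ ⟨q, rfl⟩
    obtain ⟨p, -, hp2, hp3⟩ := hext q
    rw [hp3]; exact comb_mem_S hx hXS hp2
  have := (hfin M).1
  have hd : ∀ n, Module.finrank ℂ (degreeLT ℂ n) = n := fun n => by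
    simpa using (degreeLTEquiv ℂ n).finrank_eq
  have : ∀ n, Module.Finite ℂ (degreeLT ℂ n) := fun n =>
    Module.Finite.equiv (degreeLTEquiv ℂ n).symm
  have heq : LinearMap.range Φ = S x M := by
    apply Submodule.eq_of_le_of_finrank_eq hle
    rw [LinearMap.finrank_range_of_inj hinj, (hfin M).2, Module.finrank_pi_fintype, HH,
      Finset.sum_range]
    simp [hd]
  rw [← heq] at hf
  obtain ⟨q, rfl⟩ := hf
  obtain ⟨p, -, hp2, hp3⟩ := hext q
  exact ⟨p, hp2, hp3⟩

end Pool.Agent.H680Z.OO
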