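import Mathlib

set_option autoImplicit false

namespace Pool.Agent.H680Z.OO

/-- Normal form of the local obstruction. -/
theorem local_nf {S : Type*} [CommRing S] [IsDomain S] [Algebra ℂ S] (t y Z r : S) (ht : t ≠ 0)
    (d0 d1 g l m : ℂ)
    (ha : y ^ 2 = t ^ 2 * Z + algebraMap ℂ S d0 + algebraMap ℂ S d1 * t)
    (hb : y * Z = t * r + algebraMap ℂ S g * Z + algebraMap ℂ S l * y + algebraMap ℂ S m)
    (G1 : ∀ s : S, y ≠ t * s)
    (G4 : ∀ (c1 c2 c3 : ℂ) (s : S), (y ^ 2 + algebraMap ℂ S c1 * t ^ 2 * y + algebraMap ℂ S c2 * t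
      + algebraMap ℂ S c3 * t ^ 2) ^ 2 ≠ t ^ 5 * s)
    (G5 : ∀ (c0 c1 c2 : ℂ) (s : S), (y - (algebraMap ℂ S c0 + algebraMap ℂ S c1 * t)) ^ 3 *
      (y + (algebraMap ℂ S c0 + algebraMap ℂ S c1 * t + algebraMap ℂ S c2 * t ^ 2)) ^ 2 ≠ t ^ 6 * s)
    (hN : ∀ f q : S, f ^ 2 = t ^ 2 * q → ∃ h, f = t * h) : False := by
  set k := algebraMap ℂ S with hk
  have hinv : ∀ c : ℂ, c ≠ 0 → k c * k c⁻¹ = 1 := by
    intro c hc
    rw [← map_mul, mul_inv_cancel₀ hc, map_one]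
  by_cases h0 : d0 = 0
  · subst h0
    by_cases h1 : d1 = 0
    · subst h1
      obtain ⟨h, hh⟩ := hN y Z (by simpa using ha)
      exact G1 h hh
    · simp only [map_zero, add_zero] at ha
      by_cases hg : g = 0
      · subst hg
        simp only [map_zero, zero_mul, add_zero] at hb
        by_cases hm : m = 0
        · subst hm
          simp only [map_zero, add_zero] at hb
          have e1 : t * ((k d1 + t * Z) * (Z - k l) ^ 2) = t * (t * r ^ 2) := by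
            have : y * (Z - k l) = t * r := by linear_combination hb
            have h2 : (y * (Z - k l)) ^ 2 = (t * r) ^ 2 := by rw [this]
            linear_combination h2 - (Z - k l) ^ 2 * ha
          have e2 := mul_left_cancel₀ ht e1
          have hi := hinv d1 h1
          apply G4 0 (-d1) (-l) (k d1⁻¹ * (r ^ 2 - Z * (Z - k l) ^ 2))
          simp only [map_zero, map_neg]
          have e3 : y ^ 2 + 0 * t ^ 2 * y + -k d1 * t + -k l * t ^ 2 = t ^ 2 * (Z - k l) := by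
            linear_combination ha
          rw [e3]
          linear_combination t ^ 4 * k d1⁻¹ * e2 - t ^ 4 * (Z - k l) ^ 2 * hi
        · have hi := hinv m hm
          apply G1 (k m⁻¹ * ((t * Z + k d1) * Z - r * y - k l * (t * Z + k d1)))
          linear_combination (-(k m⁻¹) * y) * hb + (k m⁻¹ * Z - k m⁻¹ * k l) * ha - y * hi
      · have hi := hinv g hg
        have e1 : k g ^ 2 * Z + (k g * k l + k m) * y + k g * k m =
            t * ((t * Z + k d1) * Z - r * y - k l * (t * Z + k d1) - k g * r) := by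
          linear_combination (-y - k g) * hb + (Z - k l) * ha
        apply G4 ((g * l + m) * g⁻¹ ^ 2) (-d1) (m * g⁻¹)
          (t * (k g⁻¹ ^ 2 * ((t * Z + k d1) * Z - r * y - k l * (t * Z + k d1) - k g * r)) ^ 2)
        simp only [map_neg, map_mul, map_add, map_pow]
        have e3 : y ^ 2 + (k g * k l + k m) * k g⁻¹ ^ 2 * t ^ 2 * y + -k d1 * t
            + k m * k g⁻¹ * t ^ 2 = t ^ 3 *
            (k g⁻¹ ^ 2 * ((t * Z + k d1) * Z - r * y - k l * (t * Z + k d1) - k g * r)) := by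
          linear_combination ha + t ^ 2 * k g⁻¹ ^ 2 * e1
            - t ^ 2 * (Z * (1 + k g * k g⁻¹) + k m * k g⁻¹) * hi
        rw [e3]; ring
  · obtain ⟨s0, hs0, hgs⟩ : ∃ s0 : ℂ, s0 ^ 2 = d0 ∧ g + s0 ≠ 0 := by
      obtain ⟨s, hs⟩ := IsAlgClosed.exists_pow_nat_eq d0 (n := 2) (by norm_num)
      by_cases hgs : g + s = 0
      · refine ⟨-s, by rw [← hs]; ring, ?_⟩
        intro h
        apply h0
        have : s = 0 := by linear_combination (1 / 2 : ℂ) * hgs - (1 / 2 : ℂ) * h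
        rw [← hs, this]; ring
      · exact ⟨s, hs, hgs⟩
    have hs0ne : s0 ≠ 0 := by
      rintro rfl
      apply h0; rw [← hs0]; ring
    obtain ⟨s1, hs1⟩ : ∃ s1 : ℂ, 2 * s0 * s1 = d1 := ⟨d1 / (2 * s0), by field_simp⟩
    obtain ⟨κ, hκ⟩ : ∃ κ : ℂ, (g + s0) * κ = (m + g * s1 ^ 2) - (l - s1 ^ 2) * s0 :=
      ⟨((m + g * s1 ^ 2) - (l - s1 ^ 2) * s0) / (g + s0), by field_simp⟩
    obtain ⟨κ', hκ'⟩ : ∃ κ' : ℂ, -(2 * s0) * κ' = κ := ⟨-κ / (2 * s0), by field_simp⟩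
    have hS0 : k s0 ^ 2 = k d0 := by rw [← map_pow, hs0]
    have hS1 : 2 * k s0 * k s1 = k d1 := by
      rw [← hs1]; simp only [map_mul, map_ofNat]
    have hK : (k g + k s0) * k κ = (k m + k g * k s1 ^ 2) - (k l - k s1 ^ 2) * k s0 := by
      have := congrArg k hκ
      simpa only [map_mul, map_add, map_sub, map_pow] using this
    have hK' : -(2 * k s0) * k κ' = k κ := by
      have := congrArg k hκ'
      simpa only [map_mul, map_neg, map_ofNat] using this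
    have hi : (k g + k s0) * k (g + s0)⁻¹ = 1 := by
      have := hinv _ hgs
      rwa [map_add] at this
    have hj := hinv (2 * s0 ^ 2) (mul_ne_zero two_ne_zero (pow_ne_zero 2 hs0ne))
    simp only [map_mul, map_pow, map_ofNat] at hj
    obtain ⟨σ, hσ⟩ : ∃ σ, σ = k s0 + k s1 * t := ⟨_, rfl⟩
    obtain ⟨u, hu⟩ : ∃ u, u = y - σ := ⟨_, rfl⟩
    obtain ⟨z, hz⟩ : ∃ z, z = Z - k s1 ^ 2 := ⟨_, rfl⟩
    have huv : u * (y + σ) = t ^ 2 * z := by
      rw [hu, hz, hσ]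
      linear_combination ha - hS0 - t * hS1
    have hyz : y * z = t * r + k g * z + (k l - k s1 ^ 2) * y + (k m + k g * k s1 ^ 2) := by
      rw [hz]; linear_combination hb
    have huy : u * y = t * (t * z - k s1 * u) - k s0 * u := by
      rw [hσ] at huv; linear_combination huv
    -- u (z + κ) is divisible by t
    have e1 : (k g + k s0) * (u * (z + k κ)) =
        t * ((t * z - k s1 * u) * z - r * u - (k l - k s1 ^ 2) * (t * z - k s1 * u)) := by
      linear_combination (-u) * hyz + (z - (k l - k s1 ^ 2)) * huy + u * hK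
    obtain ⟨s, hs⟩ : ∃ s, u * (z + k κ' * u) = t * s := by
      refine ⟨k (g + s0)⁻¹ * ((t * z - k s1 * u) * z - r * u
        - (k l - k s1 ^ 2) * (t * z - k s1 * u)) + k κ' * (t * z - 2 * k s1 * u), ?_⟩
      have huu : u * u = t * (t * z - 2 * k s1 * u) - 2 * k s0 * u := by
        have : u * u = u * (y + σ) - 2 * σ * u := by rw [hu]; ring
        rw [this, huv, hσ]; ring
      linear_combination k (g + s0)⁻¹ * e1 - u * (z + k κ) * hi + k κ' * huu + u * hK'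
    obtain ⟨w, hw⟩ : ∃ w, w = z + k κ' * u := ⟨_, rfl⟩
    rw [← hw] at hs
    have huu : u * u = t ^ 2 * z - 2 * σ * u := by
      have : u * u = u * (y + σ) - 2 * σ * u := by rw [hu]; ring
      rw [this, huv]
    have e2 : -2 * σ * (u * w ^ 2) = t ^ 2 * (s ^ 2 - z * w ^ 2) := by
      have h2 : (u * w) ^ 2 = (t * s) ^ 2 := by rw [hs]
      linear_combination h2 - w ^ 2 * huu
    have e3 : u * w ^ 2 = t ^ 2 * (k (2 * s0 ^ 2)⁻¹ * (-(k s0 - k s1 * t) * (s ^ 2 - z * w ^ 2)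
        + 2 * k s1 ^ 2 * (u * w ^ 2))) := by
      rw [hσ] at e2
      linear_combination (-(k (2 * s0 ^ 2)⁻¹) * (k s0 - k s1 * t)) * e2 - (u * w ^ 2) * hj
    apply G5 s0 s1 κ' (k (2 * s0 ^ 2)⁻¹ * (-(k s0 - k s1 * t) * (s ^ 2 - z * w ^ 2)
        + 2 * k s1 ^ 2 * (u * w ^ 2)))
    rw [← hσ, ← hu]
    have e4 : u * (y + (σ + k κ' * t ^ 2)) = t ^ 2 * w := by
      rw [hw]; linear_combination huv
    have e5 : u ^ 3 * (y + (σ + k κ' * t ^ 2)) ^ 2 = t ^ 4 * (u * w ^ 2) := by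
      have : u ^ 3 * (y + (σ + k κ' * t ^ 2)) ^ 2 = u * (u * (y + (σ + k κ' * t ^ 2))) ^ 2 := by
        ring
      rw [this, e4]; ring
    rw [e5]
    linear_combination t ^ 4 * e3

/-- The local obstruction inside a field, with coefficient ring A and order R. -/
theorem local_main {F : Type*} [Field F] [Algebra ℂ F] (A R : Subalgebra ℂ F) (hAR : A ≤ R)
    (t : F) (htA : t ∈ A) (ht : t ≠ 0)
    (hres : ∀ a ∈ A, ∃ c : ℂ, ∃ a' ∈ A, a = algebraMap ℂ F c + t * a')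
    (Y Z r α β γ l m : F) (hY : Y ∈ R) (hZ : Z ∈ R) (hr : r ∈ R)
    (hα : α ∈ A) (hβ : β ∈ A) (hγ : γ ∈ A) (hl : l ∈ A) (hm : m ∈ A)
    (ha : Y ^ 2 = t ^ 2 * Z + α * Y + β)
    (hb : Y * Z = t * r + γ * Z + l * Y + m)
    (G1 : ∀ a ∈ A, ∀ s ∈ R, Y + a ≠ t * s)
    (G4 : ∀ a ∈ A, ∀ b ∈ A, ∀ s ∈ R, (Y ^ 2 + a * Y + b) ^ 2 ≠ t ^ 5 * s)
    (G5 : ∀ a ∈ A, ∀ b ∈ A, ∀ s ∈ R, (Y + a) ^ 3 * (Y + b) ^ 2 ≠ t ^ 6 * s)
    (hN : ∀ f : F, f ^ 2 ∈ R → f ∈ R) : False := by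
  have hc : ∀ c : ℂ, algebraMap ℂ F c ∈ A := fun c => A.algebraMap_mem c
  obtain ⟨h, hh⟩ : ∃ h, h = algebraMap ℂ F (1 / 2) * α := ⟨_, rfl⟩
  have hhA : h ∈ A := hh ▸ A.mul_mem (hc _) hα
  have h2 : α = 2 * h := by
    have : (2 : F) * algebraMap ℂ F (1 / 2) = 1 := by
      rw [← map_ofNat (algebraMap ℂ F) 2, ← map_mul]; norm_num
    rw [hh]; linear_combination (-α) * this
  obtain ⟨d0, δ1, hδ1, e0⟩ := hres (β + h ^ 2) (A.add_mem hβ (A.pow_mem hhA 2))
  obtain ⟨d1, δ2, hδ2, e1⟩ := hres δ1 hδ1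
  obtain ⟨g, g', hg', e2⟩ := hres (γ - h) (A.sub_mem hγ hhA)
  obtain ⟨l0, l', hl', e3⟩ := hres (l + δ2) (A.add_mem hl hδ2)
  obtain ⟨m0, m', hm', e4⟩ := hres (m + l * h - (γ - h) * δ2)
    (A.sub_mem (A.add_mem hm (A.mul_mem hl hhA)) (A.mul_mem (A.sub_mem hγ hhA) hδ2))
  have hyR : Y - h ∈ R := R.sub_mem hY (hAR hhA)
  have hzR : Z + δ2 ∈ R := R.add_mem hZ (hAR hδ2)
  have hrR : r + g' * (Z + δ2) + l' * (Y - h) + m' ∈ R :=
    R.add_mem (R.add_mem (R.add_mem hr (R.mul_mem (hAR hg') hzR)) (R.mul_mem (hAR hl') hyR))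
      (hAR hm')
  refine local_nf (S := R) ⟨t, hAR htA⟩ ⟨Y - h, hyR⟩ ⟨Z + δ2, hzR⟩ ⟨_, hrR⟩ ?_ d0 d1 g l0 m0
    ?_ ?_ ?_ ?_ ?_ ?_
  · intro h0; exact ht (congrArg Subtype.val h0)
  · apply Subtype.ext
    push_cast
    linear_combination ha + e0 + t * e1 + Y * h2
  · apply Subtype.ext
    push_cast
    linear_combination hb + (Z + δ2) * e2 + (Y - h) * e3 + e4
  · intro s hs
    have := congrArg Subtype.val hs
    push_cast at this
    exact G1 (-h) (A.neg_mem hhA) s s.2 (by linear_combination this)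
  · intro c1 c2 c3 s hs
    have := congrArg Subtype.val hs
    push_cast at this
    refine G4 (algebraMap ℂ F c1 * t ^ 2 - 2 * h) ?_
      (h ^ 2 - algebraMap ℂ F c1 * t ^ 2 * h + algebraMap ℂ F c2 * t + algebraMap ℂ F c3 * t ^ 2) ?_
      s s.2 (by linear_combination this)
    · exact A.sub_mem (A.mul_mem (hc _) (A.pow_mem htA 2)) (h2 ▸ hα)
    · exact A.add_mem (A.add_mem (A.sub_mem (A.pow_mem hhA 2)
        (A.mul_mem (A.mul_mem (hc _) (A.pow_mem htA 2)) hhA)) (A.mul_mem (hc _) htA))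
        (A.mul_mem (hc _) (A.pow_mem htA 2))
  · intro c0 c1 c2 s hs
    have := congrArg Subtype.val hs
    push_cast at this
    refine G5 (-h - (algebraMap ℂ F c0 + algebraMap ℂ F c1 * t)) ?_
      (-h + (algebraMap ℂ F c0 + algebraMap ℂ F c1 * t + algebraMap ℂ F c2 * t ^ 2)) ?_
      s s.2 (by linear_combination this)
    · exact A.sub_mem (A.neg_mem hhA) (A.add_mem (hc _) (A.mul_mem (hc _) htA))
    · exact A.add_mem (A.neg_mem hhA) (A.add_mem (A.add_mem (hc _) (A.mul_mem (hc _) htA))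
        (A.mul_mem (hc _) (A.pow_mem htA 2)))
  · intro f q hfq
    have h1 := congrArg Subtype.val hfq
    push_cast at h1
    have : ((f : F) / t) ^ 2 ∈ R := by
      have : ((f : F) / t) ^ 2 = q := by field_simp; linear_combination h1
      rw [this]; exact q.2
    refine ⟨⟨_, hN _ this⟩, Subtype.ext ?_⟩
    push_cast
    field_simp

end Pool.Agent.H680Z.OO
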