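import Mathlib
import Pool.Agent.H680Z.OO.Local

set_option autoImplicit false

open Polynomial

namespace Pool.Agent.H680Z.OO

variable {F : Type*} [Field F] [Algebra ℂ F]

/-- f is a polynomial in y over K of degree at most i whose coefficient in degree i is c. -/
def Lead (K : IntermediateField ℂ F) (y : F) (i : ℕ) (f c : F) : Prop :=
  ∃ Q : K[X], Q.natDegree ≤ i ∧ ((Q.coeff i : K) : F) = c ∧ aeval y Q = f

variable {K : IntermediateField ℂ F} {y : F}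

theorem lead_const {a : F} (ha : a ∈ K) : Lead K y 0 a a :=
  ⟨C ⟨a, ha⟩, by simp, by simp, by simp⟩

theorem lead_y : Lead K y 1 y 1 := ⟨X, by simp, by simp, by simp⟩

theorem Lead.add {i : ℕ} {f g c d : F} (h1 : Lead K y i f c) (h2 : Lead K y i g d) :
    Lead K y i (f + g) (c + d) := by
  obtain ⟨P, hP, rfl, rfl⟩ := h1
  obtain ⟨Q, hQ, rfl, rfl⟩ := h2
  exact ⟨P + Q, natDegree_add_le_of_degree_le hP hQ, by simp, by simp⟩

theorem Lead.mul {i j : ℕ} {f g c d : F} (h1 : Lead K y i f c) (h2 : Lead K y j g d) :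
    Lead K y (i + j) (f * g) (c * d) := by
  obtain ⟨P, hP, rfl, rfl⟩ := h1
  obtain ⟨Q, hQ, rfl, rfl⟩ := h2
  exact ⟨P * Q, natDegree_mul_le_of_le hP hQ, by simp [coeff_mul_add_eq_of_natDegree_le hP hQ],
    by simp⟩

theorem Lead.smul {i : ℕ} {f c a : F} (ha : a ∈ K) (h : Lead K y i f c) :
    Lead K y i (a * f) (a * c) := by
  simpa using (lead_const (y := y) ha).mul h

theorem Lead.up {i j : ℕ} {f c : F} (h : Lead K y i f c) (hij : i < j) : Lead K y j f 0 := by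
  obtain ⟨P, hP, rfl, rfl⟩ := h
  exact ⟨P, by omega, by simp [coeff_eq_zero_of_natDegree_lt (lt_of_le_of_lt hP hij)], rfl⟩

theorem Lead.mem {i : ℕ} {f c : F} (h : Lead K y i f c) : c ∈ K := by
  obtain ⟨P, hP, rfl, rfl⟩ := h
  exact (P.coeff i).2

theorem Lead.cast {i j : ℕ} {f g c d : F} (h : Lead K y i f c) (hi : i = j) (hf : f = g)
    (hc : c = d) : Lead K y j g d := by
  subst hi hf hc; exact h

theorem Lead.uniq (hmin : ∀ Q : K[X], Q.natDegree ≤ 6 → aeval y Q = 0 → Q = 0)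
    {i : ℕ} (hi : i ≤ 6) {f c d : F} (h1 : Lead K y i f c) (h2 : Lead K y i f d) : c = d := by
  obtain ⟨P, hP, rfl, rfl⟩ := h1
  obtain ⟨Q, hQ, rfl, h⟩ := h2
  have : P - Q = 0 := hmin _ ((natDegree_sub_le_of_le hP hQ).trans (by simpa using hi))
    (by simp [h])
  rw [sub_eq_zero.mp this]

theorem lead_sum0 {X ℓ b : ℕ → F} (n : ℕ) (hX : ∀ j < n, Lead K y j (X j) (ℓ j))
    (hb : ∀ j < n, b j ∈ K) : Lead K y n (∑ j ∈ Finset.range n, b j * X j) 0 := by
  induction n with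
  | zero => simpa using lead_const (y := y) K.zero_mem
  | succ n ih =>
    rw [Finset.sum_range_succ]
    exact ((ih (fun j hj => hX j (by omega)) (fun j hj => hb j (by omega))).add
      ((hX n (by omega)).smul (hb n (by omega)))).up (by omega)

theorem lead_sum {X ℓ b : ℕ → F} (n : ℕ) (hX : ∀ j < n + 1, Lead K y j (X j) (ℓ j))
    (hb : ∀ j < n + 1, b j ∈ K) :
    Lead K y n (∑ j ∈ Finset.range (n + 1), b j * X j) (b n * ℓ n) := by
  rw [Finset.sum_range_succ]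
  simpa using (lead_sum0 n (fun j hj => hX j (by omega)) (fun j hj => hb j (by omega))).add
      ((hX n (by omega)).smul (hb n (by omega)))

theorem lead_top (hmin : ∀ Q : K[X], Q.natDegree ≤ 6 → aeval y Q = 0 → Q = 0)
    {X ℓ b : ℕ → F} (hX : ∀ j < 7, Lead K y j (X j) (ℓ j)) (hℓ : ∀ j < 7, ℓ j ≠ 0)
    (hb : ∀ j < 7, b j ∈ K) {i : ℕ} {c : F} (n : ℕ) (hn : n ≤ 7) (hi : i < n)
    (h : Lead K y i (∑ j ∈ Finset.range n, b j * X j) c) : c = b i * ℓ i := by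
  induction n with
  | zero => omega
  | succ n ih =>
    have h1 := lead_sum n (fun j hj => hX j (by omega)) (fun j hj => hb j (by omega))
    by_cases hin : i = n
    · subst hin
      exact h.uniq hmin (by omega) h1
    · have h2 := (h.up (j := n) (by omega)).uniq hmin (by omega) h1
      have h3 : b n = 0 := by
        rcases mul_eq_zero.mp h2.symm with h | h
        · exact h
        · exact absurd h (hℓ n (by omega))
      apply ih (by omega) (by omega)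
      rw [Finset.sum_range_succ, h3, zero_mul, add_zero] at h
      exact h

/-- The obstruction in one affine chart. -/
theorem chart (hmin : ∀ Q : K[X], Q.natDegree ≤ 6 → aeval y Q = 0 → Q = 0)
    (A R : Subalgebra ℂ F) (hAR : A ≤ R) (hAK : ∀ a ∈ A, a ∈ K)
    (t : F) (htA : t ∈ A) (ht : t ≠ 0)
    (hres : ∀ a ∈ A, ∃ c : ℂ, ∃ a' ∈ A, a = algebraMap ℂ F c + t * a')
    (hunit : ∀ a ∈ A, t * a ≠ 1)
    (hN : ∀ f : F, f ^ 2 ∈ R → f ∈ R)
    {X ℓ : ℕ → F} (hX : ∀ j < 7, Lead K y j (X j) (ℓ j)) (hℓ : ∀ j < 7, ℓ j ≠ 0)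
    (hXR : ∀ j < 7, X j ∈ R)
    (hspan : ∀ f ∈ R, ∃ b : ℕ → F, (∀ j < 7, b j ∈ A) ∧ f = ∑ j ∈ Finset.range 7, b j * X j)
    (κ2 κ4 κ5 : ℂ) (hκ2 : κ2 ≠ 0) (hκ4 : κ4 ≠ 0) (hκ5 : κ5 ≠ 0)
    (h4 : algebraMap ℂ F κ4 * t ^ 4 * ℓ 4 = ℓ 1 ^ 4)
    (h5 : algebraMap ℂ F κ5 * t ^ 5 * ℓ 5 = ℓ 1 ^ 5)
    (α β γ l m e : F) (hα : α ∈ A) (hβ : β ∈ A) (hγ : γ ∈ A) (hl : l ∈ A) (hm : m ∈ A)
    (he : e ∈ A)
    (ha : X 1 ^ 2 = algebraMap ℂ F κ2 * t ^ 2 * X 2 + α * X 1 + β)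
    (hb : X 1 * X 2 = t * e * X 3 + γ * X 2 + l * X 1 + m) : False := by
  have hc : ∀ c : ℂ, algebraMap ℂ F c ∈ A := fun c => A.algebraMap_mem c
  have htK : t⁻¹ ∈ K := K.inv_mem (hAK t htA)
  have key : ∀ (i n : ℕ) (κ : ℂ), i < 7 → κ ≠ 0 → algebraMap ℂ F κ * t ^ n * ℓ i = ℓ 1 ^ i →
      ∀ s ∈ R, ¬ Lead K y i (t ^ (n + 1) * s) (ℓ 1 ^ i) := by
    intro i n κ hi hκ hrel s hs hL
    obtain ⟨b, hbA, rfl⟩ := hspan s hs
    have h1 := hL.smul (pow_mem htK (n + 1))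
    rw [← mul_assoc, ← mul_pow, inv_mul_cancel₀ ht, one_pow, one_mul] at h1
    have h2 := lead_top hmin hX hℓ (fun j hj => hAK _ (hbA j hj)) 7 le_rfl hi h1
    rw [← hrel] at h2
    have hκ' : algebraMap ℂ F κ ≠ 0 := by simpa using hκ
    apply hunit (b i * algebraMap ℂ F κ⁻¹) (A.mul_mem (hbA i hi) (hc _))
    have h3 := hℓ i hi
    have h4 : t⁻¹ * algebraMap ℂ F κ * ℓ i = b i * ℓ i := by
      rw [← h2, inv_pow, pow_succ]; field_simp
    have h5 := mul_right_cancel₀ h3 h4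
    rw [← h5, map_inv₀]; field_simp
  have hY := hX 1 (by norm_num)
  have hYa : ∀ a ∈ A, Lead K y 1 (X 1 + a) (ℓ 1) := fun a ha => by
    simpa using hY.add ((lead_const (y := y) (hAK a ha)).up (j := 1) (by norm_num))
  refine local_main A R hAR t htA ht hres (X 1) (algebraMap ℂ F κ2 * X 2)
    (algebraMap ℂ F κ2 * e * X 3) α β γ (algebraMap ℂ F κ2 * l) (algebraMap ℂ F κ2 * m)
    (hXR 1 (by norm_num)) (R.mul_mem (hAR (hc _)) (hXR 2 (by norm_num)))
    (R.mul_mem (R.mul_mem (hAR (hc _)) (hAR he)) (hXR 3 (by norm_num))) hα hβ hγ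
    (A.mul_mem (hc _) hl) (A.mul_mem (hc _) hm) (by linear_combination ha)
    (by linear_combination algebraMap ℂ F κ2 * hb) ?_ ?_ ?_ hN
  · intro a ha s hs h
    apply key 1 0 1 (by norm_num) one_ne_zero (by simp) s hs
    exact (hYa a ha).cast rfl (by rw [h]; ring) (by ring)
  · intro a ha b hb s hs h
    apply key 4 4 κ4 (by norm_num) hκ4 h4 s hs
    have h1 : Lead K y 2 (X 1 ^ 2 + a * X 1 + b) (ℓ 1 ^ 2) := by
      have := ((hYa a ha).mul hY).add ((lead_const (y := y) (hAK b hb)).up (j := 2) (by norm_num))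
      exact this.cast rfl (by ring) (by ring)
    exact (h1.mul h1).cast rfl (by rw [← h]; ring) (by ring)
  · intro a ha b hb s hs h
    apply key 5 5 κ5 (by norm_num) hκ5 h5 s hs
    have h1 := hYa a ha
    have h2 := hYa b hb
    exact ((((h1.mul h1).mul h1).mul h2).mul h2).cast rfl (by rw [← h]; ring) (by ring)

end Pool.Agent.H680Z.OO
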