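import Mathlib
import Pool.Agent.H680Z.OO.Lead
import Pool.Agent.H680Z.OO.Basis

set_option autoImplicit false

open Polynomial

namespace Pool.Agent.H680Z.OO

variable {F : Type*} [Field F] [Algebra ℂ F]

theorem res_adjoin (z : F) (p : ℂ) : ∀ a ∈ Algebra.adjoin ℂ ({z} : Set F), ∃ c : ℂ,
    ∃ a' ∈ Algebra.adjoin ℂ ({z} : Set F), a = algebraMap ℂ F c + (z - algebraMap ℂ F p) * a' := by
  intro a ha
  rw [Algebra.adjoin_singleton_eq_range_aeval] at ha ⊢
  obtain ⟨q, rfl⟩ := ha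
  refine ⟨q.eval p, aeval z (q /ₘ (X - C p)), ⟨_, rfl⟩, ?_⟩
  have h := congrArg (aeval z) (modByMonic_add_div q (X - C p))
  rw [modByMonic_X_sub_C_eq_C_eval] at h
  simpa using h.symm

theorem unit_adjoin {z : F} (hz : Transcendental ℂ z) (p : ℂ) :
    ∀ a ∈ Algebra.adjoin ℂ ({z} : Set F), (z - algebraMap ℂ F p) * a ≠ 1 := by
  intro a ha h
  rw [Algebra.adjoin_singleton_eq_range_aeval] at ha
  obtain ⟨q, rfl⟩ := ha
  have h1 : aeval z ((X - C p) * q - 1) = 0 := by
    simpa [sub_eq_zero] using h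
  have h2 := congrArg (eval p) ((transcendental_iff.mp hz) _ h1)
  simp at h2

theorem aeval_mul_pow_mem {x : F} (hx : x ≠ 0) {n : ℕ} {p : ℂ[X]} (hp : p.degree < (n + 1 : ℕ)) :
    aeval x p * x⁻¹ ^ n ∈ Algebra.adjoin ℂ ({x⁻¹} : Set F) := by
  by_cases h0 : p = 0
  · subst h0; simp
  · have hn : p.natDegree < n + 1 := (natDegree_lt_iff_degree_lt h0).mpr hp
    rw [aeval_eq_sum_range' hn, Finset.sum_mul]
    refine Subalgebra.sum_mem _ fun i hi => ?_
    rw [smul_mul_assoc]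
    refine Subalgebra.smul_mem _ ?_ _
    obtain ⟨k, rfl⟩ := Nat.exists_eq_add_of_le (Nat.lt_succ_iff.mp (Finset.mem_range.mp hi))
    rw [pow_add, ← mul_assoc, ← mul_pow, mul_inv_cancel₀ hx, one_pow, one_mul]
    exact pow_mem (Algebra.self_mem_adjoin_singleton ℂ x⁻¹) k

theorem min_of_prim {K : IntermediateField ℂ F} [FiniteDimensional K F]
    (h7 : Module.finrank K F = 7)
    (hprim : ∀ E : IntermediateField ℂ F, K ≤ E → E = K ∨ E = ⊤) {y : F} (hy : y ∉ K) :
    ∀ Q : K[X], Q.natDegree ≤ 6 → aeval y Q = 0 → Q = 0 := by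
  have hle : K ≤ (IntermediateField.adjoin K {y}).restrictScalars ℂ := fun a ha =>
    (IntermediateField.adjoin K {y}).algebraMap_mem ⟨a, ha⟩
  have hyE : y ∈ (IntermediateField.adjoin K {y}).restrictScalars ℂ :=
    IntermediateField.mem_adjoin_simple_self K y
  have htop : IntermediateField.adjoin K {y} = ⊤ := by
    rcases hprim _ hle with h | h
    · rw [h] at hyE; exact absurd hyE hy
    · rw [eq_top_iff]
      intro a _
      have : a ∈ (IntermediateField.adjoin K {y}).restrictScalars ℂ := by rw [h]; trivial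
      exact this
  have hd : (minpoly K y).natDegree = 7 := by
    rw [← IntermediateField.adjoin.finrank (Algebra.IsIntegral.isIntegral y), htop,
      IntermediateField.finrank_top', h7]
  intro Q hQ h0
  by_contra hne
  have := natDegree_le_natDegree (minpoly.degree_le_of_ne_zero K y hne h0)
  omega

theorem aa_step : ∀ n < 5, ∀ j < 7, n + 2 < j → aa 1 + (aa (n + 1) + 1) ≤ aa j := by decide

theorem aa_le18 : ∀ j < 7, aa j ≤ 18 := by decide

theorem no_cover {x : F} (hxt : Transcendental ℂ x)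
    [FiniteDimensional (IntermediateField.adjoin ℂ ({x} : Set F)) F]
    (h7 : Module.finrank (IntermediateField.adjoin ℂ ({x} : Set F)) F = 7)
    (hprim : ∀ E : IntermediateField ℂ F, IntermediateField.adjoin ℂ ({x} : Set F) ≤ E →
      E = IntermediateField.adjoin ℂ ({x} : Set F) ∨ E = ⊤)
    (hfin : ∀ m, FiniteDimensional ℂ (S x m) ∧ Module.finrank ℂ (S x m) = HH m) : False := by
  have hx : x ≠ 0 := by rintro rfl; exact hxt isAlgebraic_zero
  set K := IntermediateField.adjoin ℂ ({x} : Set F) with hK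
  obtain ⟨Xs, hX0, hXS, hI⟩ := exists_basis hx hfin 6 (by norm_num)
  have hsp := comb_span hx hfin hXS hI
  have hxK : x ∈ K := IntermediateField.mem_adjoin_simple_self ℂ x
  have hAK : ∀ a ∈ Algebra.adjoin ℂ ({x} : Set F), a ∈ K := fun a ha =>
    (Algebra.adjoin_le (S := K.toSubalgebra) (by simpa using hxK)) ha
  have hAK' : ∀ a ∈ Algebra.adjoin ℂ ({x⁻¹} : Set F), a ∈ K := fun a ha =>
    (Algebra.adjoin_le (S := K.toSubalgebra) (by simpa using hxK)) ha
  have hpA : ∀ p : ℂ[X], aeval x p ∈ Algebra.adjoin ℂ ({x} : Set F) := fun p => by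
    rw [Algebra.adjoin_singleton_eq_range_aeval]; exact ⟨p, rfl⟩
  have hlin : ∀ r s : ℂ[X], aeval x r + aeval x s * Xs 1 = 0 → s = 0 := by
    intro r s h
    have := comb_inj hx hXS hI (r.natDegree + s.natDegree + 20)
      (fun j => if j = 0 then r else if j = 1 then s else 0) ?_ ?_ 1 (by norm_num)
    · simpa using this
    · intro j hj
      have h18 := aa_le18 j hj
      split_ifs
      · exact lt_of_le_of_lt degree_le_natDegree (by exact_mod_cast (by omega))
      · exact lt_of_le_of_lt degree_le_natDegree (by exact_mod_cast (by omega))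
      · simpa using WithBot.bot_lt_coe _
    · simpa [Finset.sum_range_succ, hX0] using h
  have hyK : Xs 1 ∉ K := by
    intro h
    obtain ⟨r, s, hrs⟩ := (IntermediateField.mem_adjoin_simple_iff ℂ _).mp h
    by_cases hs : aeval x s = 0
    · have := hlin 0 1 (by rw [hrs, hs]; simp)
      simp at this
    · have := hlin (-r) s (by rw [hrs, map_neg]; field_simp; ring)
      exact hs (by simp [this])
  have hmin := min_of_prim h7 hprim hyK
  have hexp : ∀ (M n : ℕ) (f : F), f ∈ S x M → n < 7 → (∀ j < 7, n < j → M ≤ aa j) →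
      ∃ p : ℕ → ℂ[X], (∀ j < 7, (p j).degree < (M - aa j : ℕ)) ∧
        f = aeval x (p n) * Xs n + ∑ j ∈ Finset.range n, aeval x (p j) * Xs j := by
    intro M n f hf hn hM
    obtain ⟨p, hp, rfl⟩ := hsp M f hf
    refine ⟨p, hp, ?_⟩
    rw [add_comm, ← Finset.sum_range_succ (fun j => aeval x (p j) * Xs j)]
    symm
    apply Finset.sum_subset (Finset.range_subset_range.mpr (by omega))
    intro j hj hj'
    have h1 := hp j (Finset.mem_range.mp hj)
    rw [Nat.sub_eq_zero_of_le (hM j (Finset.mem_range.mp hj) (by simp at hj'; omega))] at h1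
    have : p j = 0 := by simpa using h1
    simp [this]
  have hprod : ∀ i < 7, ∀ j < 7, Xs i * Xs j ∈ S x (aa i + (aa j + 1)) := fun i hi j hj =>
    S_mul hx (hXS i hi) (hXS j hj)
  have hlead : ∀ n, n < 7 → ∃ c, c ≠ 0 ∧ Lead K (Xs 1) n (Xs n) c := by
    intro n
    induction n using Nat.strong_induction_on with
    | _ n ih =>
      intro hn
      match n, ih, hn with
      | 0, _, _ => exact ⟨1, one_ne_zero, by rw [hX0]; exact lead_const K.one_mem⟩
      | 1, _, _ => exact ⟨1, one_ne_zero, lead_y⟩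
      | n + 2, ih, hn =>
        have ih' : ∀ j, ∃ c, j < n + 2 → c ≠ 0 ∧ Lead K (Xs 1) j (Xs j) c := fun j => by
          by_cases hj : j < n + 2
          · obtain ⟨c, hc⟩ := ih j hj (by omega); exact ⟨c, fun _ => hc⟩
          · exact ⟨0, fun h => absurd h hj⟩
        choose ℓ hℓ using ih'
        obtain ⟨p, -, hp⟩ := hexp _ (n + 2) _ (hprod 1 (by norm_num) (n + 1) (by omega)) hn
          (aa_step n (by omega))
        have h1 := (lead_y (K := K) (y := Xs 1)).mul (hℓ (n + 1) (by omega)).2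
        have h2 := (lead_sum0 (n + 2) (fun j hj => (hℓ j hj).2)
          (b := fun j => aeval x (p j)) (fun j _ => hAK _ (hpA _))).smul (K.neg_mem K.one_mem)
        have h3 : Lead K (Xs 1) (n + 2) (aeval x (p (n + 2)) * Xs (n + 2)) (ℓ (n + 1)) :=
          ((h1.cast (by omega) rfl rfl).add h2).cast rfl (by rw [hp]; ring) (by ring)
        have hm : aeval x (p (n + 2)) ≠ 0 := by
          intro h0
          rw [h0, zero_mul] at h3
          exact (hℓ (n + 1) (by omega)).1 (h3.uniq hmin (by omega)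
            ((lead_const K.zero_mem).up (by omega)))
        refine ⟨(aeval x (p (n + 2)))⁻¹ * ℓ (n + 1),
          mul_ne_zero (inv_ne_zero hm) (hℓ (n + 1) (by omega)).1, ?_⟩
        exact (h3.smul (K.inv_mem (hAK _ (hpA _)))).cast rfl (by field_simp) rfl
  have hlead' : ∀ j, ∃ c, j < 7 → c ≠ 0 ∧ Lead K (Xs 1) j (Xs j) c := fun j => by
    by_cases hj : j < 7
    · obtain ⟨c, hc⟩ := hlead j hj; exact ⟨c, fun _ => hc⟩
    · exact ⟨0, fun h => absurd h hj⟩
  choose ℓ hℓ using hlead'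
  have hℓ1 : ℓ 1 = 1 := (hℓ 1 (by norm_num)).2.uniq hmin (by norm_num) lead_y
  have hrel : ∀ (i j n : ℕ) (p : ℕ → ℂ[X]), i + j = n → n < 7 →
      Xs i * Xs j = aeval x (p n) * Xs n + ∑ j ∈ Finset.range n, aeval x (p j) * Xs j →
      ℓ i * ℓ j = aeval x (p n) * ℓ n := by
    intro i j n p hij hn h
    have h1 := ((hℓ i (by omega)).2.mul (hℓ j (by omega)).2).cast hij h rfl
    have h2 := ((hℓ n hn).2.smul (hAK _ (hpA (p n)))).add
      (lead_sum0 n (fun j hj => (hℓ j (by omega)).2)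
          (b := fun j => aeval x (p j)) (fun j _ => hAK _ (hpA _)))
    simpa using h1.uniq hmin (by omega) h2
  have hcst : ∀ p : ℂ[X], p.degree < (1 : ℕ) → ∃ c : ℂ, aeval x p = algebraMap ℂ F c := by
    intro p hp
    refine ⟨p.coeff 0, ?_⟩
    have : p.degree ≤ 0 := Nat.WithBot.lt_one_iff_le_zero.mp (by simpa using hp)
    conv_lhs => rw [eq_C_of_degree_le_zero this]
    simp
  obtain ⟨p11, d11, e11⟩ := hexp _ 2 _ (hprod 1 (by norm_num) 1 (by norm_num)) (by norm_num)
    (by decide)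
  obtain ⟨p12, d12, e12⟩ := hexp _ 3 _ (hprod 1 (by norm_num) 2 (by norm_num)) (by norm_num)
    (by decide)
  obtain ⟨p22, d22, e22⟩ := hexp _ 4 _ (hprod 2 (by norm_num) 2 (by norm_num)) (by norm_num)
    (by decide)
  obtain ⟨p23, d23, e23⟩ := hexp _ 5 _ (hprod 2 (by norm_num) 3 (by norm_num)) (by norm_num)
    (by decide)
  obtain ⟨p24, d24, e24⟩ := hexp _ 6 _ (hprod 2 (by norm_num) 4 (by norm_num)) (by norm_num)
    (by decide)
  obtain ⟨p33, d33, e33⟩ := hexp _ 6 _ (hprod 3 (by norm_num) 3 (by norm_num)) (by norm_num)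
    (by decide)
  have r11 := hrel 1 1 2 p11 rfl (by norm_num) e11
  have r12 := hrel 1 2 3 p12 rfl (by norm_num) e12
  have r22 := hrel 2 2 4 p22 rfl (by norm_num) e22
  have r23 := hrel 2 3 5 p23 rfl (by norm_num) e23
  have r24 := hrel 2 4 6 p24 rfl (by norm_num) e24
  have r33 := hrel 3 3 6 p33 rfl (by norm_num) e33
  obtain ⟨c22, h22⟩ := hcst _ (d22 4 (by norm_num))
  obtain ⟨c23, h23⟩ := hcst _ (d23 5 (by norm_num))
  obtain ⟨c24, h24⟩ := hcst _ (d24 6 (by norm_num))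
  obtain ⟨c33, h33⟩ := hcst _ (d33 6 (by norm_num))
  rw [h22] at r22; rw [h23] at r23; rw [h24] at r24; rw [h33] at r33
  rw [hℓ1] at r11 r12
  have n2 := (hℓ 2 (by norm_num)).1
  have n3 := (hℓ 3 (by norm_num)).1
  have n4 := (hℓ 4 (by norm_num)).1
  have z22 : c22 ≠ 0 := by rintro rfl; simp [n2] at r22
  have z23 : c23 ≠ 0 := by rintro rfl; simp [n2, n3] at r23
  have z24 : c24 ≠ 0 := by rintro rfl; simp [n2, n4] at r24
  have z33 : c33 ≠ 0 := by rintro rfl; simp [n3] at r33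
  obtain ⟨L, hL⟩ : ∃ L, L = aeval x (p12 3) := ⟨_, rfl⟩
  obtain ⟨D, hD⟩ : ∃ D, D = aeval x (p11 2) := ⟨_, rfl⟩
  rw [← hL] at r12 e12; rw [← hD] at r11 e11
  obtain ⟨κ, hκ⟩ : ∃ κ : ℂ, κ = c33 / (c22 * c24) := ⟨_, rfl⟩
  have zκ : κ ≠ 0 := by rw [hκ]; exact div_ne_zero z33 (mul_ne_zero z22 z24)
  set k := algebraMap ℂ F with hk
  have kz : ∀ c : ℂ, c ≠ 0 → k c ≠ 0 := fun c hc => by simpa [hk] using hc
  have hDL : D = k κ * L ^ 2 := by
    have a1 : (k c33 * L ^ 2) * (ℓ 2 * ℓ 3 ^ 2) = (k c22 * k c24 * D) * (ℓ 2 * ℓ 3 ^ 2) := by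
      linear_combination (-(k c33) * ℓ 2 * (L * ℓ 3 + ℓ 2)) * r12 + k c33 * ℓ 2 * r22
        + k c33 * k c22 * r24 - k c22 * k c24 * r33 + k c22 * k c24 * ℓ 3 ^ 2 * r11
    have a2 := mul_right_cancel₀ (mul_ne_zero n2 (pow_ne_zero 2 n3)) a1
    have := kz _ z22
    have := kz _ z24
    rw [hκ, map_div₀, map_mul]
    field_simp
    linear_combination -a2
  have g4 : k c22 * k κ ^ 2 * L ^ 4 * ℓ 4 = 1 := by
    have : D * ℓ 2 = 1 := by linear_combination -r11
    have h2 : (D * ℓ 2) ^ 2 = 1 := by rw [this]; ring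
    rw [hDL] at h2
    linear_combination h2 - k κ ^ 2 * L ^ 4 * r22
  have g5 : k c23 * k κ ^ 2 * L ^ 5 * ℓ 5 = 1 := by
    have : D * ℓ 2 = 1 := by linear_combination -r11
    have h2 : (D * ℓ 2) ^ 2 = 1 := by rw [this]; ring
    rw [hDL] at h2
    linear_combination h2 - k κ ^ 2 * L ^ 5 * r23 - k κ ^ 2 * L ^ 4 * ℓ 2 * r12
  obtain ⟨e1, e0, hLe⟩ : ∃ e1 e0 : ℂ, L = k e1 * x + k e0 := by
    have h1 : (p12 3).degree ≤ 1 := by
      have := d12 3 (by norm_num)
      have h2 : aa 1 + (aa 2 + 1) - aa 3 = 2 := by decide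
      rw [h2] at this
      exact Order.le_of_lt_succ this
    refine ⟨(p12 3).coeff 1, (p12 3).coeff 0, ?_⟩
    rw [hL]
    conv_lhs => rw [eq_X_add_C_of_degree_le_one h1]
    simp [hk]
  simp only [Finset.sum_range_succ, Finset.sum_range_zero, hX0] at e11 e12
  have hc : ∀ (z : F) (c : ℂ), k c ∈ Algebra.adjoin ℂ ({z} : Set F) := fun z c =>
    Subalgebra.algebraMap_mem _ c
  by_cases he1 : e1 = 0
  · have hL0 : L = k e0 := by rw [hLe, he1]; simp
    have ze0 : e0 ≠ 0 := by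
      rintro rfl
      rw [hL0] at g4; simp at g4
    have hxi : x⁻¹ ≠ 0 := inv_ne_zero hx
    have hut : Transcendental ℂ x⁻¹ := fun h => hxt (IsAlgebraic.inv_iff.mp h)
    have huK : ∀ n : ℕ, x⁻¹ ^ n ∈ K := fun n => pow_mem (K.inv_mem hxK) n
    refine chart hmin (Algebra.adjoin ℂ ({x⁻¹} : Set F)) (Rg x⁻¹) (adjoin_le_Rg _) hAK' x⁻¹
      (Algebra.self_mem_adjoin_singleton ℂ x⁻¹) hxi (by simpa using res_adjoin x⁻¹ 0)
      (by simpa using unit_adjoin hut 0) (fun f => Rg_sq)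
      (X := fun j => Xs j * x⁻¹ ^ aa j) (ℓ := fun j => ℓ j * x⁻¹ ^ aa j)
      (fun j hj => ((hℓ j hj).2.smul (huK (aa j))).cast rfl (mul_comm _ _) (mul_comm _ _))
      (fun j hj => mul_ne_zero (hℓ j hj).1 (pow_ne_zero _ hxi))
      (fun j hj => ((mem_S_succ hx).mp (hXS j hj)).2) ?_
      (κ * e0 ^ 2) (c22 * κ ^ 2 * e0 ^ 4) (c23 * κ ^ 2 * e0 ^ 5)
      (mul_ne_zero zκ (pow_ne_zero _ ze0))
      (mul_ne_zero (mul_ne_zero z22 (pow_ne_zero _ zκ)) (pow_ne_zero _ ze0))
      (mul_ne_zero (mul_ne_zero z23 (pow_ne_zero _ zκ)) (pow_ne_zero _ ze0)) ?_ ?_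
      (aeval x (p11 1) * x⁻¹ ^ 4) (aeval x (p11 0) * x⁻¹ ^ 8) (aeval x (p12 2) * x⁻¹ ^ 4)
      (aeval x (p12 1) * x⁻¹ ^ 6) (aeval x (p12 0) * x⁻¹ ^ 10) (k e0)
      (aeval_mul_pow_mem hx (d11 1 (by norm_num))) (aeval_mul_pow_mem hx (d11 0 (by norm_num)))
      (aeval_mul_pow_mem hx (d12 2 (by norm_num))) (aeval_mul_pow_mem hx (d12 1 (by norm_num)))
      (aeval_mul_pow_mem hx (d12 0 (by norm_num))) (hc _ _) ?_ ?_
    · intro f hf
      obtain ⟨N, hN⟩ := exists_pow_Rg hxi hf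
      have h1 := hN (N + 18) (by omega)
      rw [inv_inv] at h1
      have h2 : f * x ^ (N + 18) ∈ S x (N + 18 + 1) := by
        rw [mem_S_succ hx]
        refine ⟨h1, ?_⟩
        rw [mul_assoc, ← mul_pow, mul_inv_cancel₀ hx, one_pow, mul_one]; exact hf
      obtain ⟨p, hp, hfp⟩ := hsp _ _ h2
      refine ⟨fun j => aeval x (p j) * x⁻¹ ^ (N + 18 - aa j), fun j hj => ?_, ?_⟩
      · apply aeval_mul_pow_mem hx
        have := aa_le18 j hj
        have h3 : N + 18 - aa j + 1 = N + 18 + 1 - aa j := by omega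
        rw [h3]; exact hp j hj
      · have h3 : f = f * x ^ (N + 18) * x⁻¹ ^ (N + 18) := by
          rw [mul_assoc, ← mul_pow, mul_inv_cancel₀ hx, one_pow, mul_one]
        rw [h3, hfp, Finset.sum_mul]
        refine Finset.sum_congr rfl fun j hj => ?_
        have := aa_le18 j (Finset.mem_range.mp hj)
        have h4 : N + 18 = N + 18 - aa j + aa j := by omega
        conv_lhs => rw [h4, pow_add]
        ring
    · simp only [map_mul, map_pow, hℓ1, show aa 4 = 12 from rfl, show aa 1 = 4 from rfl]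
      rw [hL0] at g4
      linear_combination x⁻¹ ^ 16 * g4
    · simp only [map_mul, map_pow, hℓ1, show aa 5 = 15 from rfl, show aa 1 = 4 from rfl]
      rw [hL0] at g5
      linear_combination x⁻¹ ^ 20 * g5
    · simp only [map_mul, map_pow, show aa 2 = 6 from rfl, show aa 1 = 4 from rfl]
      rw [hDL, hL0] at e11
      linear_combination x⁻¹ ^ 8 * e11
    · simp only [show aa 2 = 6 from rfl, show aa 1 = 4 from rfl, show aa 3 = 9 from rfl]
      rw [hL0] at e12
      linear_combination x⁻¹ ^ 10 * e12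
  · obtain ⟨t, ht⟩ : ∃ t, t = x - k (-e0 / e1) := ⟨_, rfl⟩
    have hLt : L = k e1 * t := by
      have := kz _ he1
      rw [hLe, ht, map_div₀, map_neg]; field_simp; ring
    have ht0 : t ≠ 0 := by
      rintro rfl
      rw [hLt] at g4; simp at g4
    refine chart hmin (Algebra.adjoin ℂ ({x} : Set F)) (Rg x) (adjoin_le_Rg _) hAK t
      (ht ▸ sub_mem (Algebra.self_mem_adjoin_singleton ℂ x) (hc _ _)) ht0 (ht ▸ res_adjoin x _)
      (ht ▸ unit_adjoin hxt _) (fun f => Rg_sq) (X := Xs) (ℓ := ℓ)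
      (fun j hj => (hℓ j hj).2) (fun j hj => (hℓ j hj).1) (fun j hj => (hXS j hj).1) ?_
      (κ * e1 ^ 2) (c22 * κ ^ 2 * e1 ^ 4) (c23 * κ ^ 2 * e1 ^ 5)
      (mul_ne_zero zκ (pow_ne_zero _ he1))
      (mul_ne_zero (mul_ne_zero z22 (pow_ne_zero _ zκ)) (pow_ne_zero _ he1))
      (mul_ne_zero (mul_ne_zero z23 (pow_ne_zero _ zκ)) (pow_ne_zero _ he1)) ?_ ?_
      (aeval x (p11 1)) (aeval x (p11 0)) (aeval x (p12 2)) (aeval x (p12 1)) (aeval x (p12 0))
      (k e1) (hpA _) (hpA _) (hpA _) (hpA _) (hpA _) (hc _ _) ?_ ?_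
    · intro f hf
      obtain ⟨N, hN⟩ := exists_pow_Rg hx hf
      obtain ⟨p, -, hfp⟩ := hsp (N + 1) f ((mem_S_succ hx).mpr ⟨hf, hN N le_rfl⟩)
      exact ⟨fun j => aeval x (p j), fun j _ => hpA _, hfp⟩
    · simp only [map_mul, map_pow, hℓ1]
      rw [hLt] at g4
      linear_combination g4
    · simp only [map_mul, map_pow, hℓ1]
      rw [hLt] at g5
      linear_combination g5
    · simp only [map_mul, map_pow]
      rw [hDL, hLt] at e11
      linear_combination e11
    · rw [hLt] at e12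
      linear_combination e12

theorem hfin_of {x : F} (hxt : Transcendental ℂ x)
    (h : ∀ m : ℕ, ∃ b : Fin ((m + 1) + ∑ i ∈ Finset.Icc 1 (7 - 1), (m + 1 - aa i)) → F,
      LinearIndependent ℂ b ∧
      ((Submodule.span ℂ (Set.range b) : Submodule ℂ F) : Set F) =
        {f : F | IsIntegral (Algebra.adjoin ℂ ({x} : Set F)) f ∧
          IsIntegral (Algebra.adjoin ℂ ({x⁻¹} : Set F)) (f * x⁻¹ ^ m)}) :
    ∀ m, FiniteDimensional ℂ (S x m) ∧ Module.finrank ℂ (S x m) = HH m := by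
  have hx : x ≠ 0 := by rintro rfl; exact hxt isAlgebraic_zero
  have h1 : ∀ m, FiniteDimensional ℂ (S x (m + 1)) ∧
      Module.finrank ℂ (S x (m + 1)) = HH (m + 1) := by
    intro m
    obtain ⟨b, hb, hs⟩ := h m
    have : S x (m + 1) = Submodule.span ℂ (Set.range b) := by
      ext f
      rw [mem_S_succ hx, ← SetLike.mem_coe (p := Submodule.span ℂ (Set.range b)), hs]; rfl
    rw [this]
    refine ⟨FiniteDimensional.span_of_finite ℂ (Set.finite_range b), ?_⟩
    rw [finrank_span_eq_card hb, Fintype.card_fin, HH,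
      show Finset.Icc 1 (7 - 1) = {1, 2, 3, 4, 5, 6} from by decide]
    simp [Finset.sum_range_succ, show aa 0 = 0 from rfl, add_assoc]
  intro m
  cases m with
  | succ m => exact h1 m
  | zero =>
    have hb : S x 0 = ⊥ := by
      rw [eq_bot_iff]
      intro f hf
      by_contra hne
      have hne : f ≠ 0 := by simpa using hne
      have f1 : f ∈ S x 1 := S_mono (by norm_num) hf
      have f2 : x * f ∈ S x 1 := by simpa using S_mul hx (pow_mem_S hx 1) hf
      have hr : Module.finrank ℂ (S x 1) = 1 := (h1 0).2.trans (by decide)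
      obtain ⟨c, hc⟩ := (finrank_eq_one_iff_of_nonzero' (⟨f, f1⟩ : S x 1)
        (fun h => hne (congrArg Subtype.val h))).mp hr ⟨_, f2⟩
      have hc' : c • f = x * f := congrArg Subtype.val hc
      rw [Algebra.smul_def] at hc'
      exact hxt (mul_right_cancel₀ hne hc' ▸ isAlgebraic_algebraMap c)
    rw [hb]
    exact ⟨inferInstance, by simp [HH]⟩

end Pool.Agent.H680Z.OO
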